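import Mathlib

set_option autoImplicit false

/-!
# Weak `P_{κ⁺}`-points below products of ultrafilters
-/

open Set Filter Cardinal

namespace Pool.Agent.Results.MP_96acc4_lc.WeakPBelowProduct

/-- The Rudin-Keisler order: `u ≤_RK v` iff `u` is the image of `v` under some map. -/
def RK {X Y : Type} (u : Ultrafilter Y) (v : Ultrafilter X) : Prop := ∃ f : X → Y, v.map f = u

/-- The product `v ⊗ w` of two ultrafilters. -/
def tensor {X Y : Type} (v : Ultrafilter X) (w : Ultrafilter Y) : Ultrafilter (X × Y) :=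
  v.bind fun x => w.map (Prod.mk x)

/-- `A ∈ v ⊗ w` iff `{x : {y : (x, y) ∈ A} ∈ w} ∈ v`. -/
theorem mem_tensor {X Y : Type} (v : Ultrafilter X) (w : Ultrafilter Y) (A : Set (X × Y)) :
    A ∈ tensor v w ↔ {x : X | {y : Y | (x, y) ∈ A} ∈ w} ∈ v := Iff.rfl

/-- The iterated product `v 0 ⊗ (v 1 ⊗ (⋯ ⊗ v n))`, as an ultrafilter on the set of sequences of
length `n + 1`. -/
def iter {K : Type} : (n : ℕ) → (Fin (n + 1) → Ultrafilter K) → Ultrafilter (Fin (n + 1) → K)
  | 0, v => (v 0).map fun x _ => x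
  | n + 1, v => (tensor (v 0) (iter n fun i => v i.succ)).map
      fun p => (Fin.cons p.1 p.2 : Fin (n + 2) → K)

/-- Weak `P_{κ⁺}`-points: nonprincipal ultrafilters on `ω` which are not in the closure of any set
of at most `κ` other nonprincipal ultrafilters on `ω`. -/
def IsWeakPPoint (κ : Cardinal.{0}) (u : Ultrafilter ℕ) : Prop :=
  (∀ n, u ≠ pure n) ∧ ∀ F : Set (Ultrafilter ℕ), (∀ p ∈ F, ∀ n, p ≠ pure n) → u ∉ F →
    #F ≤ κ → u ∉ closure F

/-- The case of two factors; the second factor is an ultrafilter on an arbitrary set. -/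
theorem two_factors {K X : Type} {u : Ultrafilter ℕ} (hu : IsWeakPPoint #K u)
    (v : Ultrafilter K) (w : Ultrafilter X) (h : RK u (tensor v w)) : RK u v ∨ RK u w := by
  classical
  obtain ⟨f, hf⟩ := h
  set wa : K → Ultrafilter ℕ := fun a => w.map fun x => f (a, x) with hwa
  have hmem : ∀ A : Set ℕ, A ∈ u ↔ {a | A ∈ wa a} ∈ v := by
    intro A
    rw [← hf]
    exact Iff.rfl
  by_cases hS : {a | ∀ n, wa a ≠ pure n} ∈ v
  · right
    by_cases hin : u ∈ wa '' {a | ∀ n, wa a ≠ pure n}
    · obtain ⟨a, _, ha⟩ := hin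
      exact ⟨fun x => f (a, x), ha⟩
    · exfalso
      refine hu.2 (wa '' {a | ∀ n, wa a ≠ pure n}) ?_ hin ?_ ?_
      · rintro _ ⟨a, ha, rfl⟩
        exact ha
      · exact mk_image_le.trans (mk_set_le _)
      · rw [(ultrafilterBasis_is_basis (α := ℕ)).mem_closure_iff]
        rintro _ ⟨A, rfl⟩ hA
        have h1 := (hmem A).mp hA
        obtain ⟨a, ha1, ha2⟩ := v.nonempty_of_mem (inter_mem h1 hS)
        exact ⟨wa a, ha1, a, ha2, rfl⟩
  · left
    have hS' : {a | ∃ n, wa a = pure n} ∈ v := by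
      have := Ultrafilter.compl_mem_iff_notMem.mpr hS
      refine mem_of_superset this fun a ha => ?_
      simpa using ha
    refine ⟨fun a => if h : ∃ n, wa a = pure n then h.choose else 0, ?_⟩
    apply Ultrafilter.ext
    intro A
    rw [hmem A, Ultrafilter.mem_map]
    constructor
    · intro h1
      refine mem_of_superset (inter_mem h1 hS') ?_
      rintro a ⟨ha1, ha2⟩
      have ha3 : ∃ n, wa a = pure n := ha2
      have h3 := ha3.choose_spec
      have h4 : ha3.choose ∈ A := by
        rw [mem_preimage, dif_pos ha3] at ha1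
        exact ha1
      show A ∈ wa a
      rw [h3]
      exact h4
    · intro h1
      refine mem_of_superset (inter_mem h1 hS') ?_
      rintro a ⟨ha1, ha2⟩
      have ha3 : ∃ n, wa a = pure n := ha2
      have h3 := ha3.choose_spec
      rw [mem_preimage, dif_pos ha3]
      have h4 : A ∈ wa a := ha1
      rw [h3] at h4
      exact h4

/-- **Theorem.** If a weak `P_{κ⁺}`-point `u` is Rudin-Keisler below a finite product
`v 0 ⊗ ⋯ ⊗ v n` of ultrafilters on a set of cardinality `κ`, then it is Rudin-Keisler below one of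
the factors. (No restriction on the cardinal `κ` is needed.) -/
theorem result (κ : Cardinal.{0}) (K : Type) (hK : #K = κ) (u : Ultrafilter ℕ)
    (hu : IsWeakPPoint κ u) (n : ℕ) (v : Fin (n + 1) → Ultrafilter K) (h : RK u (iter n v)) :
    ∃ k, RK u (v k) := by
  subst hK
  induction n with
  | zero =>
    obtain ⟨f, hf⟩ := h
    exact ⟨0, fun x => f fun _ => x, hf⟩
  | succ n ih =>
    obtain ⟨f, hf⟩ := h
    have h2 : RK u (tensor (v 0) (iter n fun i => v i.succ)) :=
      ⟨fun p => f (Fin.cons p.1 p.2 : Fin (n + 2) → K), hf⟩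
    rcases two_factors hu _ _ h2 with h3 | h3
    · exact ⟨0, h3⟩
    · obtain ⟨k, hk⟩ := ih _ h3
      exact ⟨k.succ, hk⟩

end Pool.Agent.Results.MP_96acc4_lc.WeakPBelowProduct
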